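import Mathlib

/-!
# Some odd numbers are never the gap from `2 ^ n` to the next odd semiprime

We exhibit 37 primes `p` with residues `r p` modulo the order `d p` of `2` modulo `p` such that every
integer `n` satisfies `n ≡ r p (mod d p)` for at least two of the primes (a double covering system with
period 1440). The Chinese remainder theorem gives an odd `K` with `2 ^ (r p) + K ≡ 0 (mod p)` for
all of them, so `2 ^ n + K` always has two of these primes as divisors, and it is larger than their
product; so it is never a semiprime.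
-/

set_option autoImplicit false

namespace Pool.Agent.Results.MP_c49196_nt.MissedGaps

/-- a semiprime is a product of two primes, not necessarily distinct -/
def IsSemiprime (s : ℕ) : Prop := ∃ p q : ℕ, p.Prime ∧ q.Prime ∧ s = p * q

/-- the distance from `2 ^ n` to the smallest odd semiprime exceeding it -/
noncomputable def a (n : ℕ) : ℕ := sInf {s : ℕ | 2 ^ n < s ∧ Odd s ∧ IsSemiprime s} - 2 ^ n

/-- sanity check: the smallest odd semiprime exceeding `2 ^ n` exists -/
lemma exists_semiprime (n : ℕ) : {s : ℕ | 2 ^ n < s ∧ Odd s ∧ IsSemiprime s}.Nonempty := by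
  obtain ⟨p, hp, hpp⟩ := Nat.exists_infinite_primes (2 ^ n + 3)
  refine ⟨3 * p, ?_, ?_, 3, p, Nat.prime_three, hpp, rfl⟩
  · show 2 ^ n < 3 * p
    omega
  · have h2 : p ≠ 2 := by
      have : 0 < 2 ^ n := by positivity
      omega
    exact Nat.odd_mul.2 ⟨by decide, hpp.odd_of_ne_two h2⟩

/-- the covering system: `(r, d, p)` with `2 ^ d ≡ 1 (mod p)` -/
def T : List (ℕ × ℕ × ℕ) := [
  (0, 2, 3), (1, 3, 7), (3, 4, 5), (2, 5, 31), (5, 8, 17),
  (6, 9, 73), (5, 10, 11), (5, 12, 13), (8, 15, 151), (9, 16, 257),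
  (12, 18, 19), (19, 20, 41), (9, 24, 241), (14, 30, 331), (1, 32, 65537),
  (0, 36, 37), (18, 36, 109), (31, 40, 61681), (41, 45, 631), (11, 45, 23311),
  (21, 48, 97), (45, 48, 673), (50, 60, 61), (20, 60, 1321), (3, 72, 433),
  (27, 72, 38737), (26, 90, 18837001), (49, 96, 193), (129, 144, 577), (49, 160, 414721),
  (63, 180, 181), (71, 180, 54001), (81, 288, 1153), (111, 288, 6337), (401, 480, 23041),
  (183, 720, 8369281), (543, 1440, 37441)]

/-- the common difference, twice the product of the primes of the covering system -/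
def M : ℕ := 26442491115786263137883918516629744554179859684862578027038773434220105849284082186733119450737595938446190

/-- the first term -/
def K : ℕ := 5772595809240277601212034478863803869979289804342956670124913544809167990283165606817044897462971626277797

theorem T_prime : ∀ t ∈ T, Nat.Prime t.2.2 := by
  intro t ht
  simp only [T, List.mem_cons, List.not_mem_nil, or_false] at ht
  rcases ht with rfl | rfl | rfl | rfl | rfl | rfl | rfl | rfl | rfl | rfl | rfl | rfl | rfl | rfl | rfl | rfl | rfl | rfl | rfl | rfl | rfl | rfl | rfl | rfl | rfl | rfl | rfl | rfl | rfl | rfl | rfl | rfl | rfl | rfl | rfl | rfl | rfl <;> norm_num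

theorem T_nodup : (T.map (fun t => t.2.2)).Nodup := by decide +kernel

theorem T_check : ∀ t ∈ T, 2 ^ t.2.1 % t.2.2 = 1 ∧ (2 ^ t.1 + K) % t.2.2 = 0 ∧ M % t.2.2 = 0 ∧
    1440 % t.2.1 = 0 ∧ t.2.2 ≤ 18837001 := by decide +kernel

theorem T_cover : ∀ r < 1440, 2 ≤ (T.filter (fun t => r % t.2.1 = t.1)).length := by
  decide +kernel

theorem K_large : 18837001 * 18837001 < K := by decide +kernel

theorem K_odd : Odd K := by decide +kernel

theorem M_even : Even M := by decide +kernel

theorem dvd_of_mem {n j : ℕ} {t : ℕ × ℕ × ℕ} (ht : t ∈ T) (h : n % 1440 % t.2.1 = t.1) :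
    t.2.2 ∣ 2 ^ n + (K + M * j) := by
  obtain ⟨h1, h2, h3, h4, -⟩ := T_check t ht
  have h5 : n % t.2.1 = t.1 := by
    rw [← h]
    exact (Nat.mod_mod_of_dvd n (Nat.dvd_of_mod_eq_zero h4)).symm
  have h6 : 2 ^ n ≡ 2 ^ t.1 [MOD t.2.2] := by
    conv_lhs => rw [← Nat.div_add_mod n t.2.1, h5, pow_add, pow_mul]
    have h7 : 2 ^ t.2.1 ≡ 1 [MOD t.2.2] := by
      have h8 := (T_prime t ht).one_lt
      rw [Nat.ModEq, h1, Nat.mod_eq_of_lt h8]
    have h9 := (h7.pow (n / t.2.1)).mul_right (2 ^ t.1)
    rwa [one_pow, one_mul] at h9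
  have h10 : M * j ≡ 0 [MOD t.2.2] :=
    (Nat.modEq_zero_iff_dvd.2 ((Nat.dvd_of_mod_eq_zero h3).mul_right j))
  have h11 : 2 ^ n + (K + M * j) ≡ 2 ^ t.1 + (K + 0) [MOD t.2.2] :=
    h6.add (Nat.ModEq.rfl.add h10)
  rw [add_zero] at h11
  exact Nat.modEq_zero_iff_dvd.1 (h11.trans h2)

theorem not_semiprime (n j : ℕ) : ¬ IsSemiprime (2 ^ n + (K + M * j)) := by
  rintro ⟨u, v, hu, hv, huv⟩
  have hc := T_cover (n % 1440) (Nat.mod_lt _ (by norm_num))
  have hsub : (T.filter (fun t => n % 1440 % t.2.1 = t.1)).Sublist T := List.filter_sublist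
  have hnd : ((T.filter (fun t => n % 1440 % t.2.1 = t.1)).map (fun t => t.2.2)).Nodup :=
    T_nodup.sublist (hsub.map _)
  rcases hl : T.filter (fun t => n % 1440 % t.2.1 = t.1) with _ | ⟨x, _ | ⟨y, l⟩⟩
  · rw [hl] at hc
    simp at hc
  · rw [hl] at hc
    simp at hc
  · rw [hl] at hnd
    have hx : x ∈ T.filter (fun t => n % 1440 % t.2.1 = t.1) := by rw [hl]; simp
    have hy : y ∈ T.filter (fun t => n % 1440 % t.2.1 = t.1) := by rw [hl]; simp
    rw [List.mem_filter, decide_eq_true_eq] at hx hy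
    have hne : x.2.2 ≠ y.2.2 := by
      rw [List.map_cons, List.map_cons, List.nodup_cons, List.mem_cons] at hnd
      exact fun h => hnd.1 (Or.inl h)
    have dx := dvd_of_mem (n := n) (j := j) hx.1 hx.2
    have dy := dvd_of_mem (n := n) (j := j) hy.1 hy.2
    have px := T_prime x hx.1
    have py := T_prime y hy.1
    have bx := (T_check x hx.1).2.2.2.2
    have bY := (T_check y hy.1).2.2.2.2
    have hbig : x.2.2 * y.2.2 < 2 ^ n + (K + M * j) := by
      exact lt_of_le_of_lt (Nat.mul_le_mul bx bY)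
        (K_large.trans_le ((Nat.le_add_right _ _).trans (Nat.le_add_left _ _)))
    rw [huv] at dx dy hbig
    have ex : x.2.2 = u ∨ x.2.2 = v :=
      ((px.dvd_mul).1 dx).imp (Nat.prime_dvd_prime_iff_eq px hu).1
        (Nat.prime_dvd_prime_iff_eq px hv).1
    have ey : y.2.2 = u ∨ y.2.2 = v :=
      ((py.dvd_mul).1 dy).imp (Nat.prime_dvd_prime_iff_eq py hu).1
        (Nat.prime_dvd_prime_iff_eq py hv).1
    rcases ex with ex | ex <;> rcases ey with ey | ey
    · exact hne (ex.trans ey.symm)
    · rw [ex, ey] at hbig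
      exact lt_irrefl _ hbig
    · rw [ex, ey, mul_comm] at hbig
      exact lt_irrefl _ hbig
    · exact hne (ex.trans ey.symm)

/-- There is an infinite arithmetic progression of odd positive integers `K + M j` (`K` odd, `M`
even and positive) none of which is a value of `a`. In particular not every odd positive integer
is a value of `a`. -/
theorem result : ∃ M K : ℕ, 0 < M ∧ Even M ∧ Odd K ∧ ∀ j n : ℕ, a n ≠ K + M * j := by
  refine ⟨M, K, by decide +kernel, M_even, K_odd, fun j n h => ?_⟩
  have h1 := Nat.sInf_mem (exists_semiprime n)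
  obtain ⟨h2, -, h3⟩ := h1
  unfold a at h
  set s := sInf {s : ℕ | 2 ^ n < s ∧ Odd s ∧ IsSemiprime s} with hs
  have h4 : s = 2 ^ n + (K + M * j) := by omega
  rw [h4] at h3
  exact not_semiprime n j h3

end Pool.Agent.Results.MP_c49196_nt.MissedGaps
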